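import Pool.Agent.Y714.KW.Stm

set_option autoImplicit false
set_option linter.unusedSectionVars false

/-!
Project KW, part NI (by helper794): the norms of the brackets of two components.
-/

namespace Pool.Agent.Y794.KW

open Pool.Agent.Y714.KE Pool.Agent.Y714.KW
open Pool.Agent.Y714.KF (FI sp ct nm br ct_le exists_index prod_norm_emb det_emb_ne card_emb vec
  Nd nm_sp)
open NumberField FractionalIdeal Module Finset
open scoped nonZeroDivisors

section one

variable {K L : Type} [Field K] [NumberField K] [Field L] [NumberField L]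

theorem exists_den (I : FI K) : ∃ m : ℕ, m ≠ 0 ∧ ∀ x ∈ I, ∃ a : 𝓞 K, (a : K) = m * x := by
  have hd : (I.den : 𝓞 K) ≠ 0 := nonZeroDivisors.ne_zero I.den.2
  have h1 := Ideal.absNorm_mem (Ideal.span {(I.den : 𝓞 K)})
  rw [Ideal.mem_span_singleton'] at h1
  obtain ⟨t, ht⟩ := h1
  refine ⟨Ideal.absNorm (Ideal.span {(I.den : 𝓞 K)}), ?_, fun x hx => ?_⟩
  · rw [Ne, Ideal.absNorm_eq_zero_iff, Ideal.span_singleton_eq_bot]
    exact hd
  · have h2 : algebraMap (𝓞 K) K (I.den : 𝓞 K) * x ∈ (I.num : FI K) := by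
      rw [← den_mul_self_eq_num']
      exact FractionalIdeal.mul_mem_mul (mem_spanSingleton_self _ _) hx
    obtain ⟨y, hy, hy'⟩ := (mem_coeIdeal _).1 h2
    refine ⟨t * y, ?_⟩
    have h3 : ((Ideal.absNorm (Ideal.span {(I.den : 𝓞 K)}) : ℕ) : K) =
        algebraMap (𝓞 K) K (t * (I.den : 𝓞 K)) := by
      rw [ht, map_natCast]
    show algebraMap (𝓞 K) K (t * y) = _
    rw [h3, map_mul, map_mul, mul_assoc, ← hy']

/-- The product over the embeddings as a determinant. -/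
theorem prod_emb_eq_det (a b : 𝓞 K) (x y : ℂ) :
    ∏ σ : K →+* ℂ, (σ a * y - σ b * x) =
      (y • (Algebra.leftMulMatrix (RingOfIntegers.basis K) a).map (Int.castRingHom ℂ) -
        x • (Algebra.leftMulMatrix (RingOfIntegers.basis K) b).map (Int.castRingHom ℂ)).det := by
  classical
  have hcard : Fintype.card (Free.ChooseBasisIndex ℤ (𝓞 K)) = Fintype.card (K →+* ℂ) := by
    rw [card_emb, ← finrank_eq_card_chooseBasisIndex, RingOfIntegers.rank]
  let e : Free.ChooseBasisIndex ℤ (𝓞 K) ≃ (K →+* ℂ) := Fintype.equivOfCardEq hcard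
  let S : Matrix (Free.ChooseBasisIndex ℤ (𝓞 K)) (Free.ChooseBasisIndex ℤ (𝓞 K)) ℂ :=
    Matrix.of fun i j => (e i) (integralBasis K j)
  have hS : S.det ≠ 0 := det_emb_ne (integralBasis K) e
  have key : ∀ a : 𝓞 K,
      S * (Algebra.leftMulMatrix (RingOfIntegers.basis K) a).map (Int.castRingHom ℂ) =
      Matrix.diagonal (fun k => (e k) a) * S := by
    intro a
    ext k j
    rw [Matrix.mul_apply, Matrix.diagonal_mul]
    have h1 : (e k) (algebraMap (𝓞 K) K (∑ i, (RingOfIntegers.basis K).repr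
        (a * RingOfIntegers.basis K j) i • RingOfIntegers.basis K i)) =
        (e k) (algebraMap (𝓞 K) K (a * RingOfIntegers.basis K j)) := by
      rw [(RingOfIntegers.basis K).sum_repr]
    have hSk : ∀ k j, S k j = (e k) (algebraMap (𝓞 K) K (RingOfIntegers.basis K j)) :=
      fun k j => by
        show (e k) (integralBasis K j) = _
        rw [integralBasis_apply]
    rw [map_mul (algebraMap (𝓞 K) K), map_mul (e k), ← hSk, map_sum, map_sum] at h1
    rw [← h1]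
    refine Finset.sum_congr rfl fun i _ => ?_
    rw [Matrix.map_apply, Algebra.leftMulMatrix_eq_repr_mul, zsmul_eq_mul,
      map_mul (algebraMap (𝓞 K) K), map_mul (e k), map_intCast, map_intCast, ← hSk, mul_comm]
    rfl
  have h3 : S * (y • (Algebra.leftMulMatrix (RingOfIntegers.basis K) a).map (Int.castRingHom ℂ) -
        x • (Algebra.leftMulMatrix (RingOfIntegers.basis K) b).map (Int.castRingHom ℂ)) =
      Matrix.diagonal (fun k => (e k) a * y - (e k) b * x) * S := by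
    rw [Matrix.mul_sub, Matrix.mul_smul, Matrix.mul_smul, key, key]
    ext k j
    rw [Matrix.sub_apply, Matrix.smul_apply, Matrix.smul_apply, Matrix.diagonal_mul,
      Matrix.diagonal_mul, Matrix.diagonal_mul, smul_eq_mul, smul_eq_mul]
    ring
  have h4 := congrArg Matrix.det h3
  rw [Matrix.det_mul, Matrix.det_mul, Matrix.det_diagonal, mul_comm] at h4
  have h5 := mul_right_cancel₀ hS h4
  rw [h5]
  exact (Equiv.prod_comp e (fun σ : K →+* ℂ => σ a * y - σ b * x)).symm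

/-- The norm of the bracket is a nonzero integer. -/
theorem one_le_prod (a b : 𝓞 K) (c d : 𝓞 L)
    (h : ∀ (σ : K →+* ℂ) (τ : L →+* ℂ), σ a * τ d - σ b * τ c ≠ 0) :
    1 ≤ ∏ σ : K →+* ℂ, ∏ τ : L →+* ℂ, ‖σ a * τ d - σ b * τ c‖ := by
  classical
  let g : 𝓞 L := (d • (Algebra.leftMulMatrix (RingOfIntegers.basis K) a).map
      (Int.castRingHom (𝓞 L)) -
    c • (Algebra.leftMulMatrix (RingOfIntegers.basis K) b).map (Int.castRingHom (𝓞 L))).det
  have hg : ∀ τ : L →+* ℂ, τ g = ∏ σ : K →+* ℂ, (σ a * τ d - σ b * τ c) := by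
    intro τ
    rw [prod_emb_eq_det]
    have h1 := RingHom.map_det (τ.comp (algebraMap (𝓞 L) L))
      (d • (Algebra.leftMulMatrix (RingOfIntegers.basis K) a).map (Int.castRingHom (𝓞 L)) -
        c • (Algebra.leftMulMatrix (RingOfIntegers.basis K) b).map (Int.castRingHom (𝓞 L)))
    have h2 : τ g = (τ.comp (algebraMap (𝓞 L) L)) g := rfl
    rw [h2, h1]
    congr 1
    ext i j
    simp
  have hg0 : g ≠ 0 := by
    intro h0
    obtain ⟨τ⟩ : Nonempty (L →+* ℂ) := inferInstance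
    have h1 := hg τ
    rw [h0] at h1
    have h2 : ∏ σ : K →+* ℂ, (σ a * τ d - σ b * τ c) ≠ 0 := Finset.prod_ne_zero_iff.2
      fun σ _ => h σ τ
    apply h2
    rw [← h1]
    simp
  have h1 : ∏ σ : K →+* ℂ, ∏ τ : L →+* ℂ, ‖σ a * τ d - σ b * τ c‖ = ∏ τ : L →+* ℂ, ‖τ g‖ := by
    rw [Finset.prod_comm]
    refine Finset.prod_congr rfl fun τ _ => ?_
    rw [hg, norm_prod]
  rw [h1, prod_norm_emb, nm_sp, ← Algebra.coe_norm_int]
  have h2 : Algebra.norm ℤ g ≠ 0 := Algebra.norm_ne_zero_iff.2 hg0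
  have h3 : (1 : ℤ) ≤ |Algebra.norm ℤ g| := Int.one_le_abs h2
  exact_mod_cast h3

end one

variable {s : Type} [Fintype s] [DecidableEq s] (K : s → Type) [∀ i, Field (K i)]
  [∀ i, NumberField (K i)]

theorem exists_le {ι : Type} [Finite ι] (f : ι → ℝ) (hf : ∀ i, 0 < f i) :
    ∃ c : ℝ, 0 < c ∧ ∀ i, c ≤ f i := by
  rcases isEmpty_or_nonempty ι with h | h
  · exact ⟨1, one_pos, fun i => (h.false i).elim⟩
  · obtain ⟨i, hi⟩ := Finite.exists_min f
    exact ⟨f i, hf i, hi⟩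

/-- Integrality of the norms. -/
theorem ni : S_NI K := by
  classical
  intro I
  have h1 := fun i => exists_den (I i : FI (K i))
  choose m hm0 hm using h1
  have h2 := fun i => exists_index (I i)
  choose c₀ hc0 hc using h2
  have hpos : ∀ i, (0 : ℝ) < m i := fun i => by exact_mod_cast Nat.pos_of_ne_zero (hm0 i)
  obtain ⟨c1, hc1, hc1'⟩ := exists_le (fun q : s × s => (((m q.1 : ℝ) * m q.2) ^
    (Fintype.card (K q.2 →+* ℂ) * Fintype.card (K q.1 →+* ℂ)))⁻¹)
    (fun q => by have := hpos q.1; have := hpos q.2; positivity)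
  obtain ⟨c2, hc2, hc2'⟩ := exists_le (fun i : s => c₀ i ^ 2)
    (fun i => by have := hc0 i; positivity)
  refine ⟨min c1 c2, lt_min hc1 hc2, fun P hP hND => ⟨fun i j hij => ?_, fun i => ?_⟩⟩
  · refine (min_le_left _ _).trans ((hc1' (i, j)).trans ?_)
    obtain ⟨hi1, hi2⟩ := ct_le.1 (hP i)
    obtain ⟨hj1, hj2⟩ := ct_le.1 (hP j)
    obtain ⟨a, ha⟩ := hm i _ hi1
    obtain ⟨b, hb⟩ := hm i _ hi2
    obtain ⟨c, hc⟩ := hm j _ hj1
    obtain ⟨d, hd⟩ := hm j _ hj2
    have e1 : ∀ (σ : K i →+* ℂ) (τ : K j →+* ℂ), σ a * τ d - σ b * τ c =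
        ((m i : ℂ) * m j) * br (vc P ⟨i, σ⟩) (vc P ⟨j, τ⟩) := by
      intro σ τ
      rw [ha, hb, hc, hd]
      simp only [map_mul, map_natCast]
      show _ = ((m i : ℂ) * m j) * (σ (P.1 i) * τ (P.2 j) - σ (P.2 i) * τ (P.1 j))
      show (m i : ℂ) * σ (P.1 i) * ((m j : ℂ) * τ (P.2 j)) -
        (m i : ℂ) * σ (P.2 i) * ((m j : ℂ) * τ (P.1 j)) = _
      ring
    have e2 : ∀ (σ : K i →+* ℂ) (τ : K j →+* ℂ), σ a * τ d - σ b * τ c ≠ 0 := by
      intro σ τ
      rw [e1]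
      refine mul_ne_zero (mul_ne_zero ?_ ?_) (hND _ _ fun h => hij (congrArg Sigma.fst h))
      · exact_mod_cast hm0 i
      · exact_mod_cast hm0 j
    have e3 := one_le_prod a b c d e2
    have e4 : ∏ σ : K i →+* ℂ, ∏ τ : K j →+* ℂ, ‖σ a * τ d - σ b * τ c‖ =
        ((m i : ℝ) * m j) ^ (Fintype.card (K j →+* ℂ) * Fintype.card (K i →+* ℂ)) *
          ∏ σ : K i →+* ℂ, ∏ τ : K j →+* ℂ, ‖br (vc P ⟨i, σ⟩) (vc P ⟨j, τ⟩)‖ := by
      have e5 : ∀ (σ : K i →+* ℂ) (τ : K j →+* ℂ), ‖σ a * τ d - σ b * τ c‖ =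
          ((m i : ℝ) * m j) * ‖br (vc P ⟨i, σ⟩) (vc P ⟨j, τ⟩)‖ := by
        intro σ τ
        rw [e1, norm_mul, norm_mul, Complex.norm_natCast, Complex.norm_natCast]
      simp only [e5, Finset.prod_mul_distrib, Finset.prod_const, Finset.card_univ, ← pow_mul,
        mul_pow]
    rw [e4] at e3
    have h0 : (0 : ℝ) < ((m i : ℝ) * m j) ^
        (Fintype.card (K j →+* ℂ) * Fintype.card (K i →+* ℂ)) := by
      have := hpos i; have := hpos j; positivity
    rw [inv_le_iff_one_le_mul₀' h0]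
    exact e3
  · refine (min_le_right _ _).trans ((hc2' i).trans ?_)
    have hNd : Nd (cp P i) := by
      intro σ τ hστ
      exact hND ⟨i, σ⟩ ⟨i, τ⟩ (fun h => hστ (by simpa using h))
    obtain ⟨D, hD, h3, -⟩ := hc i (cp P i) (hP i) hNd
    have h4 : ∏ q ∈ (univ : Finset (K i →+* ℂ)).offDiag,
        ‖br (vc P ⟨i, q.1⟩) (vc P ⟨i, q.2⟩)‖ = (c₀ i * D) ^ 2 := by
      rw [← h3]
      rfl
    rw [h4]
    have h5 : (1 : ℝ) ≤ D := by exact_mod_cast Nat.one_le_iff_ne_zero.2 hD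
    have h6 : c₀ i ≤ c₀ i * D := le_mul_of_one_le_right (hc0 i).le h5
    exact pow_le_pow_left₀ (hc0 i).le h6 2

end Pool.Agent.Y794.KW
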