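import Pool.Agent.Y714.KW.Stm
import Pool.Agent.Y714.ML.Ht

set_option autoImplicit false

/-!
Project KW, part DU (by helper794): linear programming duality for `b`-matchings.
-/

namespace Pool.Agent.Y794.KW

open Finset
open Pool.Agent.Y714.ML (Cop card_Cop card_filter_Cop permMon exists_perm_of_dense
  exists_potential)

theorem prod_perm {I : Type} [Fintype I] [DecidableEq I] (e : I → ℕ)
    (σ : Equiv.Perm (Cop e)) (w : I → I → ℝ) :
    ∏ q : I × I, w q.1 q.2 ^ (permMon e σ).1 q = ∏ j : Cop e, w j.1 (σ j).1 := by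
  unfold permMon
  simp only
  have h1 : ∏ j : Cop e, w j.1 (σ j).1 =
      ∏ j : Cop e, (fun q : I × I => w q.1 q.2) ((fun j : Cop e => (j.1, (σ j).1)) j) := rfl
  rw [h1, ← Finset.prod_fiberwise_of_maps_to' (s := (univ : Finset (Cop e))) (t := univ)
    (g := fun j : Cop e => (j.1, (σ j).1)) (fun j _ => mem_univ _)
    (fun q : I × I => w q.1 q.2)]
  refine prod_congr rfl fun q _ => ?_
  rw [prod_const]
  congr 1
  congr 1
  ext j
  simp [Prod.ext_iff]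

/-- The duality. -/
theorem du : Pool.Agent.Y714.KW.S_DU := by
  classical
  intro I _ _ e he h2e w hw hw0 hwp H hH
  have h2 : (0 : ℝ) < 2 := two_pos
  obtain ⟨τ, hτ⟩ := exists_perm_of_dense (fun j k : Cop e => ¬ k.1 = j.1)
    (fun j k h1 h2 => h1 h2.symm)
    (fun j => by
      simp only [not_not]
      rw [card_filter_Cop e (fun i => i = j.1), card_Cop]
      rw [Finset.filter_eq', if_pos (mem_univ j.1), sum_singleton]
      exact h2e j.1)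
  obtain ⟨W, hW⟩ : ∃ W : I → I → ℤ, W = fun i k => ⌈Real.logb 2 (w i k)⌉ := ⟨_, rfl⟩
  have hWc : ∀ i k, W i k = W k i := fun i k => by rw [hW]; simp only; rw [hw i k]
  have hW1 : ∀ i k, i ≠ k → w i k ≤ (2 : ℝ) ^ (W i k : ℝ) := by
    intro i k hik
    have h3 : Real.logb 2 (w i k) ≤ (W i k : ℝ) := by rw [hW]; exact Int.le_ceil _
    calc w i k = (2 : ℝ) ^ Real.logb 2 (w i k) :=
          (Real.rpow_logb h2 (by norm_num) (hwp i k hik)).symm
      _ ≤ _ := Real.rpow_le_rpow_of_exponent_le one_le_two h3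
  have hW2 : ∀ i k, i ≠ k → (2 : ℝ) ^ (W i k : ℝ) ≤ 2 * w i k := by
    intro i k hik
    have h3 : (W i k : ℝ) ≤ Real.logb 2 (w i k) + 1 := by
      rw [hW]; exact (Int.ceil_lt_add_one _).le
    calc (2 : ℝ) ^ (W i k : ℝ) ≤ (2 : ℝ) ^ (Real.logb 2 (w i k) + 1) :=
          Real.rpow_le_rpow_of_exponent_le one_le_two h3
      _ = 2 * w i k := by
          rw [Real.rpow_add h2, Real.rpow_one,
            Real.rpow_logb h2 (by norm_num) (hwp i k hik), mul_comm]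
  obtain ⟨z, σ, h3, h4⟩ := exists_potential (fun j k : Cop e => ¬ k.1 = j.1)
    (fun j k h1 h2 => h1 h2.symm) (fun j k => W j.1 k.1) (fun j k => hWc _ _) τ hτ
  have hmin : ∀ i, ∃ a : Fin (e i), ∀ b : Fin (e i), z ⟨i, a⟩ ≤ z ⟨i, b⟩ := by
    intro i
    have : Nonempty (Fin (e i)) := ⟨⟨0, he i⟩⟩
    obtain ⟨a, -, ha⟩ := exists_min_image (univ : Finset (Fin (e i))) (fun b => z ⟨i, b⟩)
      univ_nonempty
    exact ⟨a, fun b => ha b (mem_univ b)⟩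
  choose a ha using hmin
  refine ⟨fun i => (2 : ℝ) ^ ((z ⟨i, a i⟩ : ℝ) / 2), fun i => Real.rpow_pos_of_pos h2 _, ?_, ?_⟩
  · intro i k hik
    have h5 : 2 * W i k ≤ z ⟨i, a i⟩ + z ⟨k, a k⟩ :=
      h3 ⟨i, a i⟩ ⟨k, a k⟩ (fun h => hik h.symm)
    have h6 : (W i k : ℝ) ≤ (z ⟨i, a i⟩ : ℝ) / 2 + (z ⟨k, a k⟩ : ℝ) / 2 := by
      have h7 : (2 : ℝ) * W i k ≤ z ⟨i, a i⟩ + z ⟨k, a k⟩ := by exact_mod_cast h5
      linarith
    simp only
    rw [← Real.rpow_add h2]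
    exact (hW1 i k hik).trans (Real.rpow_le_rpow_of_exponent_le one_le_two h6)
  · have e1 : ∏ i, ((2 : ℝ) ^ ((z ⟨i, a i⟩ : ℝ) / 2)) ^ (2 * e i) =
        (2 : ℝ) ^ (∑ i, (e i : ℝ) * (z ⟨i, a i⟩ : ℝ)) := by
      rw [Real.rpow_sum_of_pos h2]
      refine prod_congr rfl fun i _ => ?_
      rw [← Real.rpow_natCast, ← Real.rpow_mul h2.le]
      congr 1
      push_cast
      ring
    have hsum : ∑ i, (e i : ℤ) * z ⟨i, a i⟩ ≤ ∑ j : Cop e, W j.1 (σ j).1 := by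
      have h5 : ∑ i, (e i : ℤ) * z ⟨i, a i⟩ ≤ ∑ j : Cop e, z j := by
        rw [Fintype.sum_sigma]
        refine sum_le_sum fun i _ => ?_
        calc (e i : ℤ) * z ⟨i, a i⟩ = ∑ b : Fin (e i), z ⟨i, a i⟩ := by simp
          _ ≤ ∑ b : Fin (e i), z ⟨i, b⟩ := sum_le_sum fun b _ => ha i b
      have h6 : ∑ j : Cop e, z (σ j) = ∑ j : Cop e, z j := Equiv.sum_comp σ z
      have h7 : ∑ j : Cop e, (z j + z (σ j)) = ∑ j : Cop e, 2 * W j.1 (σ j).1 :=
        sum_congr rfl fun j _ => (h4 j).2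
      rw [sum_add_distrib, h6, ← mul_sum] at h7
      linarith
    have hsum' : ∑ i, (e i : ℝ) * (z ⟨i, a i⟩ : ℝ) ≤ ∑ j : Cop e, (W j.1 (σ j).1 : ℝ) := by
      exact_mod_cast hsum
    have e2 : (2 : ℝ) ^ (∑ j : Cop e, (W j.1 (σ j).1 : ℝ)) ≤
        2 ^ (∑ i, e i) * ∏ j : Cop e, w j.1 (σ j).1 := by
      rw [Real.rpow_sum_of_pos h2]
      have e3 : (2 : ℝ) ^ (∑ i, e i) = ∏ _j : Cop e, 2 := by
        rw [prod_const, Finset.card_univ, card_Cop]
      rw [e3, ← prod_mul_distrib]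
      refine prod_le_prod (fun j _ => (Real.rpow_pos_of_pos h2 _).le) fun j _ => ?_
      exact hW2 _ _ fun h => (h4 j).1 h.symm
    have e4 : ∏ j : Cop e, w j.1 (σ j).1 ≤ H := by
      rw [← prod_perm]
      exact hH ⟨(permMon e σ).1, (permMon e σ).2⟩
    have hH0 : 0 ≤ H := (prod_nonneg fun j _ => hw0 _ _).trans e4
    have e5 : (2 : ℝ) ^ (∑ i, e i) ≤ 2 ^ (2 * ∑ i, e i) :=
      pow_le_pow_right₀ one_le_two (by omega)
    rw [e1]
    calc (2 : ℝ) ^ (∑ i, (e i : ℝ) * (z ⟨i, a i⟩ : ℝ))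
        ≤ (2 : ℝ) ^ (∑ j : Cop e, (W j.1 (σ j).1 : ℝ)) :=
          Real.rpow_le_rpow_of_exponent_le one_le_two hsum'
      _ ≤ 2 ^ (∑ i, e i) * ∏ j : Cop e, w j.1 (σ j).1 := e2
      _ ≤ 2 ^ (∑ i, e i) * H := mul_le_mul_of_nonneg_left e4 (by positivity)
      _ ≤ 2 ^ (2 * ∑ i, e i) * H := mul_le_mul_of_nonneg_right e5 hH0

end Pool.Agent.Y794.KW
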